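import Pool.Agent.V5helper49.IR.Stm

/-! Project IR (helper49), job COV: the covariance of two events. -/

set_option autoImplicit false

namespace Pool.Agent.V5helper72.IR

open Finset
open Pool.Agent.V5helper49.IR

theorem EB_mono {p : ℕ → ℝ} (hp : ∀ k, 0 ≤ p k ∧ p k ≤ 1) : ∀ (M : ℕ) (F G : Finset ℕ → ℝ),
    (∀ B ⊆ range M, F B ≤ G B) → EB p M F ≤ EB p M G := by
  intro M
  induction M with
  | zero =>
    intro F G h
    exact h ∅ (by simp)
  | succ M ih =>
    intro F G h
    rw [EB, EB]
    have h1 := ih (fun B => F (insert M B)) (fun B => G (insert M B)) (fun B hB => h _ (by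
      rw [Finset.range_add_one]; exact Finset.insert_subset_insert M hB))
    have h2 := ih F G (fun B hB => h _ (hB.trans (by
      rw [Finset.range_add_one]; exact Finset.subset_insert _ _)))
    have hM := hp M
    have e1 := mul_le_mul_of_nonneg_left h1 hM.1
    have e2 := mul_le_mul_of_nonneg_left h2 (sub_nonneg.mpr hM.2)
    linarith

theorem EB_add (p : ℕ → ℝ) : ∀ (M : ℕ) (F G : Finset ℕ → ℝ),
    EB p M (fun B => F B + G B) = EB p M F + EB p M G := by
  intro M
  induction M with
  | zero => intro F G; rfl
  | succ M ih =>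
    intro F G
    rw [EB, EB, EB, ih F G, ih (fun B => F (insert M B)) (fun B => G (insert M B))]
    ring

theorem EB_const (p : ℕ → ℝ) (c : ℝ) : ∀ M : ℕ, EB p M (fun _ => c) = c := by
  intro M
  induction M with
  | zero => rfl
  | succ M ih =>
    rw [EB, ih]
    ring

open Classical in
theorem EB_mem {p : ℕ → ℝ} (hp : ∀ k, 0 ≤ p k ∧ p k ≤ 1) (c : ℕ) : ∀ M : ℕ, c < M →
    EB p M (fun B => if c ∈ B then (1 : ℝ) else 0) = p c := by
  intro M
  induction M with
  | zero => intro h; omega
  | succ M ih =>
    intro h
    rw [EB]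
    by_cases hc : c = M
    · subst hc
      have h1 : (fun B : Finset ℕ => if c ∈ insert c B then (1 : ℝ) else 0) = fun _ => 1 := by
        funext B
        rw [if_pos (Finset.mem_insert_self _ _)]
      have h2 : EB p c (fun B => if c ∈ B then (1 : ℝ) else 0) = 0 := by
        apply le_antisymm
        · calc EB p c (fun B => if c ∈ B then (1 : ℝ) else 0) ≤ EB p c (fun _ => 0) := by
                apply EB_mono hp
                intro B hB
                rw [if_neg]
                intro hcB
                have := Finset.mem_range.mp (hB hcB)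
                omega
            _ = 0 := EB_const p 0 c
        · calc (0 : ℝ) = EB p c (fun _ => 0) := (EB_const p 0 c).symm
            _ ≤ _ := by
                apply EB_mono hp
                intro B _
                split_ifs <;> norm_num
      rw [h1, EB_const, h2]
      ring
    · have h1 : (fun B : Finset ℕ => if c ∈ insert M B then (1 : ℝ) else 0) =
          fun B => if c ∈ B then (1 : ℝ) else 0 := by
        funext B
        simp only [Finset.mem_insert, hc, false_or]
      rw [h1, ih (by omega)]
      ring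

open Classical in
/-- the event `n ∉ (B ∪ U) + (B ∪ U)` -/
noncomputable def Fi (n : ℕ) (U B : Finset ℕ) : ℝ := if Zr n (B ∪ U) then 1 else 0

theorem Fi_nonneg (n : ℕ) (U B : Finset ℕ) : 0 ≤ Fi n U B := by
  unfold Fi; split_ifs <;> norm_num

theorem Fi_le_one (n : ℕ) (U B : Finset ℕ) : Fi n U B ≤ 1 := by
  unfold Fi; split_ifs <;> norm_num

/-- the weights -/
noncomputable def w (p : ℕ → ℝ) (M n : ℕ) (U : Finset ℕ) (k : ℕ) : ℝ :=
  if n < k then 0 else if M ≤ n - k then (if n - k ∈ U then 1 else 0) else if n - k = k then 1 else p (n - k)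

theorem w_nonneg {p : ℕ → ℝ} (hp : ∀ k, 0 ≤ p k ∧ p k ≤ 1) (M n : ℕ) (U : Finset ℕ) (k : ℕ) :
    0 ≤ w p M n U k := by
  unfold w
  split_ifs
  · exact le_rfl
  · norm_num
  · exact le_rfl
  · norm_num
  · exact (hp _).1

theorem w_same (p : ℕ → ℝ) (M n : ℕ) (U : Finset ℕ) (k : ℕ) (hk : k < M) (hn : n ≠ k + M) :
    w p M n (insert M U) k = w p (M + 1) n U k ∧ w p M n U k = w p (M + 1) n U k := by
  unfold w
  by_cases h1 : n < k
  · simp [h1]
  · by_cases h2 : M + 1 ≤ n - k
    · have h3 : M ≤ n - k := by omega
      have h4 : n - k ≠ M := by omega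
      simp only [h1, if_false, h2, h3, if_true, Finset.mem_insert, h4, false_or, and_self]
    · have h3 : ¬ M ≤ n - k := by omega
      simp only [h1, if_false, h2, h3, and_self]

theorem w_spec (p : ℕ → ℝ) (M : ℕ) (U : Finset ℕ) (k : ℕ) (hk : k < M) (hU : ∀ u ∈ U, M + 1 ≤ u) :
    w p M (k + M) (insert M U) k = 1 ∧ w p M (k + M) U k = 0 ∧ w p (M + 1) (k + M) U k = p M := by
  have h1 : ¬ (k + M < k) := by omega
  have h2 : k + M - k = M := by omega
  have h3 : M ∉ U := fun h => by
    have := hU M h; omega
  have h4 : M ≠ k := by omega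
  unfold w
  rw [h2]
  refine ⟨?_, ?_, ?_⟩
  · rw [if_neg h1, if_pos le_rfl, if_pos (Finset.mem_insert_self _ _)]
  · rw [if_neg h1, if_pos le_rfl, if_neg h3]
  · rw [if_neg h1, if_neg (by omega), if_neg h4]

theorem Fi_anti (n M : ℕ) (U B : Finset ℕ) : Fi n (insert M U) B ≤ Fi n U B := by
  unfold Fi
  by_cases h : Zr n (B ∪ insert M U)
  · have h' : Zr n (B ∪ U) := by
      intro a ha b hb
      refine h a ?_ b ?_
      · rw [Finset.union_insert]; exact Finset.mem_insert_of_mem ha
      · rw [Finset.union_insert]; exact Finset.mem_insert_of_mem hb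
    rw [if_pos h, if_pos h']
  · rw [if_neg h]
    split_ifs <;> norm_num

/-- if adding `M` matters then its partner is there -/
theorem Fi_diff (n M : ℕ) (U B : Finset ℕ) (h : ¬ (M ≤ n ∧ n - M ∈ B ∪ insert M U)) :
    Fi n U B ≤ Fi n (insert M U) B := by
  unfold Fi
  by_cases h1 : Zr n (B ∪ U)
  · have h2 : Zr n (B ∪ insert M U) := by
      intro a ha b hb hab
      by_cases haM : a = M
      · apply h
        refine ⟨by omega, ?_⟩
        have : n - M = b := by omega
        rw [this]; exact hb
      · by_cases hbM : b = M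
        · apply h
          refine ⟨by omega, ?_⟩
          have : n - M = a := by omega
          rw [this]; exact ha
        · rw [Finset.union_insert, Finset.mem_insert] at ha hb
          exact h1 a (ha.resolve_left haM) b (hb.resolve_left hbM) hab
    rw [if_pos h1, if_pos h2]
  · rw [if_neg h1]
    split_ifs <;> norm_num

theorem diff_le {p : ℕ → ℝ} (hp : ∀ k, 0 ≤ p k ∧ p k ≤ 1) (n M : ℕ) (U : Finset ℕ)
    (hU : ∀ u ∈ U, M + 1 ≤ u) :
    EB p M (Fi n U) ≤ EB p M (Fi n (insert M U)) + w p (M + 1) n U M := by
  classical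
  by_cases h1 : n < M
  · have : w p (M + 1) n U M = 0 := by unfold w; rw [if_pos h1]
    rw [this, add_zero]
    exact EB_mono hp M _ _ (fun B _ => Fi_diff n M U B (fun h => by omega))
  · by_cases h2 : M + 1 ≤ n - M
    · by_cases h3 : n - M ∈ U
      · have : w p (M + 1) n U M = 1 := by unfold w; rw [if_neg h1, if_pos h2, if_pos h3]
        rw [this, ← EB_const p 1 M, ← EB_add]
        refine EB_mono hp M _ _ (fun B _ => ?_)
        have e1 := Fi_le_one n U B
        have e2 := Fi_nonneg n (insert M U) B
        linarith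
      · have : w p (M + 1) n U M = 0 := by unfold w; rw [if_neg h1, if_pos h2, if_neg h3]
        rw [this, add_zero]
        refine EB_mono hp M _ _ (fun B hB => Fi_diff n M U B (fun h => ?_))
        have h4 := h.2
        rw [Finset.mem_union, Finset.mem_insert] at h4
        rcases h4 with h4 | h4 | h4
        · have := Finset.mem_range.mp (hB h4); omega
        · omega
        · exact h3 h4
    · by_cases h3 : n - M = M
      · have : w p (M + 1) n U M = 1 := by unfold w; rw [if_neg h1, if_neg h2, if_pos h3]
        rw [this, ← EB_const p 1 M, ← EB_add]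
        refine EB_mono hp M _ _ (fun B _ => ?_)
        have e1 := Fi_le_one n U B
        have e2 := Fi_nonneg n (insert M U) B
        linarith
      · have : w p (M + 1) n U M = p (n - M) := by unfold w; rw [if_neg h1, if_neg h2, if_neg h3]
        rw [this, ← EB_mem hp (n - M) M (by omega), ← EB_add]
        refine EB_mono hp M _ _ (fun B hB => ?_)
        by_cases h4 : n - M ∈ B
        · rw [if_pos h4]
          have e1 := Fi_le_one n U B
          have e2 := Fi_nonneg n (insert M U) B
          linarith
        · rw [if_neg h4, add_zero]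
          refine Fi_diff n M U B (fun h => ?_)
          have h5 := h.2
          rw [Finset.mem_union, Finset.mem_insert] at h5
          rcases h5 with h5 | h5 | h5
          · exact h4 h5
          · exact h3 h5
          · have := hU _ h5; omega

theorem main {p : ℕ → ℝ} (hp : ∀ k, 0 ≤ p k ∧ p k ≤ 1) (n m : ℕ) (hnm : n ≠ m) :
    ∀ (M : ℕ) (U : Finset ℕ), (∀ u ∈ U, M ≤ u) →
      EB p M (fun B => Fi n U B * Fi m U B) ≤ EB p M (Fi n U) * EB p M (Fi m U) +
        ∑ k ∈ range M, p k * w p M n U k * w p M m U k := by
  intro M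
  induction M with
  | zero =>
    intro U _
    rw [EB, EB, EB]
    simp
  | succ M ih =>
    intro U hU
    have hins : ∀ j : ℕ, (fun B => Fi j U (insert M B)) = Fi j (insert M U) := by
      intro j
      funext B
      unfold Fi
      rw [Finset.insert_union, Finset.union_insert]
    have hl : EB p (M + 1) (fun B => Fi n U B * Fi m U B) =
        p M * EB p M (fun B => Fi n (insert M U) B * Fi m (insert M U) B) +
          (1 - p M) * EB p M (fun B => Fi n U B * Fi m U B) := by
      rw [EB]
      have e : (fun B => Fi n U (insert M B) * Fi m U (insert M B)) =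
          fun B => Fi n (insert M U) B * Fi m (insert M U) B := by
        funext B
        rw [← congrFun (hins n) B, ← congrFun (hins m) B]
      rw [e]
    have hr : ∀ j : ℕ, EB p (M + 1) (Fi j U) = p M * EB p M (Fi j (insert M U)) + (1 - p M) * EB p M (Fi j U) := by
      intro j
      rw [EB, hins j]
    have i1 := ih (insert M U) (fun u hu => by
      rw [Finset.mem_insert] at hu
      rcases hu with rfl | hu
      · exact le_rfl
      · have := hU u hu; omega)
    have i2 := ih U (fun u hu => by have := hU u hu; omega)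
    rw [hl, hr n, hr m, Finset.sum_range_succ]
    set a := EB p M (Fi n U)
    set a' := EB p M (Fi n (insert M U))
    set b := EB p M (Fi m U)
    set b' := EB p M (Fi m (insert M U))
    have hM := hp M
    have ha1 : a' ≤ a := EB_mono hp M _ _ (fun B _ => Fi_anti n M U B)
    have hb1 : b' ≤ b := EB_mono hp M _ _ (fun B _ => Fi_anti m M U B)
    have ha2 : a ≤ a' + w p (M + 1) n U M := diff_le hp n M U hU
    have hb2 : b ≤ b' + w p (M + 1) m U M := diff_le hp m M U hU
    have hsum : p M * ∑ k ∈ range M, p k * w p M n (insert M U) k * w p M m (insert M U) k +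
        (1 - p M) * ∑ k ∈ range M, p k * w p M n U k * w p M m U k =
        ∑ k ∈ range M, p k * w p (M + 1) n U k * w p (M + 1) m U k := by
      rw [Finset.mul_sum, Finset.mul_sum, ← Finset.sum_add_distrib]
      refine Finset.sum_congr rfl fun k hk => ?_
      have hk' := Finset.mem_range.mp hk
      by_cases hn : n = k + M
      · have hm : m ≠ k + M := fun h => hnm (hn.trans h.symm)
        obtain ⟨e1, e2⟩ := w_same p M m U k hk' hm
        obtain ⟨e3, e4, e5⟩ := w_spec p M U k hk' hU
        rw [← hn] at e3 e4 e5
        rw [e1, e2, e3, e4, e5]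
        ring
      · obtain ⟨e1, e2⟩ := w_same p M n U k hk' hn
        by_cases hm : m = k + M
        · obtain ⟨e3, e4, e5⟩ := w_spec p M U k hk' hU
          rw [← hm] at e3 e4 e5
          rw [e1, e2, e3, e4, e5]
          ring
        · obtain ⟨e3, e4⟩ := w_same p M m U k hk' hm
          rw [e1, e2, e3, e4]
          ring
    have hprod : p M * (1 - p M) * ((a - a') * (b - b')) ≤ p M * w p (M + 1) n U M * w p (M + 1) m U M := by
      have e1 : (a - a') * (b - b') ≤ w p (M + 1) n U M * w p (M + 1) m U M :=
        mul_le_mul (by linarith) (by linarith) (by linarith) (w_nonneg hp _ _ _ _)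
      have e2 : 0 ≤ (a - a') * (b - b') := mul_nonneg (by linarith) (by linarith)
      have e3 : p M * (1 - p M) ≤ p M := by nlinarith [hM.1, hM.2]
      calc p M * (1 - p M) * ((a - a') * (b - b')) ≤ p M * ((a - a') * (b - b')) :=
            mul_le_mul_of_nonneg_right e3 e2
        _ ≤ p M * (w p (M + 1) n U M * w p (M + 1) m U M) := mul_le_mul_of_nonneg_left e1 hM.1
        _ = _ := by ring
    have j1 := mul_le_mul_of_nonneg_left i1 hM.1
    have j2 := mul_le_mul_of_nonneg_left i2 (sub_nonneg.mpr hM.2)
    have hid : p M * (a' * b') + (1 - p M) * (a * b) =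
        (p M * a' + (1 - p M) * a) * (p M * b' + (1 - p M) * b) + p M * (1 - p M) * ((a - a') * (b - b')) := by
      ring
    rw [mul_add] at j1 j2
    linarith

theorem t_COV : S_COV := by
  classical
  intro p hp M n m hn hm hnm
  have h1 := main hp n m hnm M ∅ (fun u hu => absurd hu (Finset.notMem_empty u))
  have hFi : ∀ j : ℕ, Fi j ∅ = fun B => if Zr j B then (1 : ℝ) else 0 := by
    intro j
    funext B
    unfold Fi
    rw [Finset.union_empty]
  have hmul : (fun B => Fi n ∅ B * Fi m ∅ B) =
      fun B => (if Zr n B then (1 : ℝ) else 0) * (if Zr m B then (1 : ℝ) else 0) := by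
    funext B
    rw [congrFun (hFi n) B, congrFun (hFi m) B]
  rw [hmul, hFi n, hFi m] at h1
  refine h1.trans ?_
  have hw : ∀ j : ℕ, j < M → ∀ k : ℕ, (2 * k ≠ j → w p M j ∅ k = qq p j k) ∧ (2 * k = j → w p M j ∅ k = 1) := by
    intro j hj k
    constructor
    · intro hk
      unfold w qq
      by_cases h : j < k
      · rw [if_pos h, if_neg (by omega)]
      · rw [if_neg h, if_neg (by omega), if_neg (by omega), if_pos (by omega)]
    · intro hk
      unfold w
      rw [if_neg (by omega), if_neg (by omega), if_pos (by omega)]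
  have hqq : ∀ j k : ℕ, 0 ≤ qq p j k := by
    intro j k
    unfold qq
    split_ifs
    · exact (hp _).1
    · exact le_rfl
  have hterm : ∀ k ∈ range M, p k * w p M n ∅ k * w p M m ∅ k ≤ p k * qq p n k * qq p m k +
      ((if k = n / 2 then p (n / 2) * qq p m (n / 2) else 0) +
        (if k = m / 2 then p (m / 2) * qq p n (m / 2) else 0)) := by
    intro k _
    have g0 := (hp k).1
    have g1 : 0 ≤ p k * qq p n k * qq p m k := mul_nonneg (mul_nonneg g0 (hqq _ _)) (hqq _ _)
    have g2 : 0 ≤ (if k = n / 2 then p (n / 2) * qq p m (n / 2) else 0) := by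
      split_ifs
      · exact mul_nonneg (hp _).1 (hqq _ _)
      · exact le_rfl
    have g3 : 0 ≤ (if k = m / 2 then p (m / 2) * qq p n (m / 2) else 0) := by
      split_ifs
      · exact mul_nonneg (hp _).1 (hqq _ _)
      · exact le_rfl
    by_cases hkn : 2 * k = n
    · have hkm : 2 * k ≠ m := fun h => hnm (hkn.symm.trans h)
      have e1 : k = n / 2 := by omega
      rw [(hw n hn k).2 hkn, (hw m hm k).1 hkm]
      have e2 : (if k = n / 2 then p (n / 2) * qq p m (n / 2) else 0) = p k * qq p m k := by
        rw [if_pos e1, ← e1]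
      rw [e2, mul_one]
      linarith
    · by_cases hkm : 2 * k = m
      · have e1 : k = m / 2 := by omega
        rw [(hw n hn k).1 hkn, (hw m hm k).2 hkm]
        have e2 : (if k = m / 2 then p (m / 2) * qq p n (m / 2) else 0) = p k * qq p n k := by
          rw [if_pos e1, ← e1]
        rw [e2, mul_one]
        linarith
      · rw [(hw n hn k).1 hkn, (hw m hm k).1 hkm]
        linarith
  have hsum := Finset.sum_le_sum hterm
  rw [Finset.sum_add_distrib, Finset.sum_add_distrib, Finset.sum_ite_eq', Finset.sum_ite_eq',
    if_pos (Finset.mem_range.mpr (by omega)), if_pos (Finset.mem_range.mpr (by omega))] at hsum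
  unfold cv
  linarith

end Pool.Agent.V5helper72.IR
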